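import Pool.Agent.Helper74.RN.St

set_option autoImplicit false

namespace Pool.Agent.Helper9.RN

open Pool.Agent.Helper74 Pool.Agent.Helper74.RN
open Pool.Agent.Helper74.NM (NC)

theorem countP_or (G : Type) (act : G → Bool) (col : G → ℕ) (c : ℕ) (l : List G) :
    l.countP (fun x => !act x || decide (col x = c)) =
      l.countP (fun x => !act x) + (l.filter act).countP (fun x => decide (col x = c)) := by
  induction l with
  | nil => simp
  | cons x l ih =>
    rw [List.countP_cons, List.countP_cons, List.filter_cons, ih]
    cases h : act x
    · simp
      omega
    · by_cases hc : col x = c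
      · simp [List.countP_cons, hc]
        omega
      · simp [List.countP_cons, hc]

theorem length_filter (G : Type) (act : G → Bool) (l : List G) :
    l.length = l.countP (fun x => !act x) + (l.filter act).length := by
  induction l with
  | nil => simp
  | cons x l ih =>
    rw [List.countP_cons, List.filter_cons, List.length_cons]
    cases h : act x
    · simp
      omega
    · simp
      omega

theorem countP_two (G : Type) (col : G → ℕ) (c c' : ℕ) (h : c' ≠ c) (l : List G) :
    l.countP (fun x => decide (col x = c)) + l.countP (fun x => decide (col x = c')) ≤
      l.length := by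
  induction l with
  | nil => simp
  | cons x l ih =>
    rw [List.countP_cons, List.countP_cons, List.length_cons]
    by_cases h1 : col x = c
    · have h2 : col x ≠ c' := fun h3 => h (h3.symm.trans h1)
      simp [h1, h2]
      have h2' : c ≠ c' := fun h3 => h h3.symm
      simp [h2']
      omega
    · by_cases h2 : col x = c'
      · simp [h2, h]
        omega
      · simp [h1, h2]
        omega

/-- UPB. -/
theorem hUPB (hDEL : StDEL) (hMXC : StMXC) (hSUB : StSUB) : StUPB := by
  intro G act col l k h1 h2
  set l₀ := l.filter act with hl₀
  have hlen : l.length = l.countP (fun x => !act x) + l₀.length := length_filter G act l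
  have h2' : ∀ c : ℕ, 2 * (l.countP (fun x => !act x) +
      l₀.countP (fun x => decide (col x = c))) ≤ l.length + k := by
    intro c
    have := h2 c
    rw [countP_or] at this
    exact this
  have hfin : ∀ l' : List G, l'.Sublist l₀ → Even l'.length →
      (∀ c : ℕ, 2 * l'.countP (fun x => decide (col x = c)) ≤ l'.length) →
      l.length ≤ l'.length + k → ∃ j, j ≤ k ∧ Fo (Rc act col) l j := by
    intro l' hs he hc hk
    have hact : ∀ x ∈ l', act x = true := by
      intro x hx
      have := hs.subset hx
      rw [hl₀, List.mem_filter] at this
      exact this.2
    have hNC := hMXC G act col l' hact he hc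
    obtain ⟨j, hj, hF⟩ := hSUB G (Rc act col) l' l (hs.trans List.filter_sublist) hNC
    exact ⟨j, by omega, hF⟩
  by_cases hbig : ∃ c : ℕ, l₀.length < 2 * l₀.countP (fun x => decide (col x = c))
  · obtain ⟨c, hc⟩ := hbig
    have hle : l₀.countP (fun x => decide (col x = c)) ≤ l₀.length := List.countP_le_length
    obtain ⟨l', hs, hl1, hl2, hl3⟩ := hDEL G (fun x => decide (col x = c)) l₀
      (2 * l₀.countP (fun x => decide (col x = c)) - l₀.length) (by omega)
    have hc2 := h2' c
    refine hfin l' hs ⟨l₀.length - l₀.countP (fun x => decide (col x = c)), by omega⟩ ?_
      (by omega)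
    intro c'
    by_cases hcc : c' = c
    · subst hcc
      omega
    · have h3 := hl3 (fun x => decide (col x = c')) (by
        intro x hx
        have : col x = c' := of_decide_eq_true hx
        simp [this, hcc])
      have h4 := countP_two G col c c' hcc l₀
      rw [h3]
      omega
  · push Not at hbig
    rcases Nat.even_or_odd l₀.length with he | ho
    · exact hfin l₀ (List.Sublist.refl _) he hbig (by omega)
    · cases hl : l₀ with
      | nil =>
        rw [hl] at ho
        simp at ho
      | cons x t =>
        have hL : l₀.length = t.length + 1 := by rw [hl]; rfl
        have hodd : l₀.length % 2 = 1 := Nat.odd_iff.1 ho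
        refine hfin t (by rw [hl]; exact List.sublist_cons_self x t) ?_ ?_ ?_
        · rw [Nat.even_iff]
          omega
        · intro c
          have h3 := hbig c
          have h4 : t.countP (fun x => decide (col x = c)) ≤
              l₀.countP (fun x => decide (col x = c)) := by
            rw [hl, List.countP_cons]
            omega
          omega
        · omega

end Pool.Agent.Helper9.RN
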